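import Pool.Agent.H23.HKS.Final3

/-!
# The sharp form without hypotheses on the morphisms: the contradiction
-/

set_option autoImplicit false

namespace Pool.Agent.H41.HKSE

open Pool.Agent.H23.HKS

theorem core (hhole2 : HoleSt2) (hlate : LateSt) (hpos : PosSt) (B : Type) [Finite B]
    (v : ℕ → B) (K : B → List (Fin 3)) (P : List (Fin 3)) (Y y : ℕ → Fin 3) (i0 j0 : ℕ)
    (hG : Good K P) (hY : IsImage K v Y) (hTE : ∀ k, Y (i0 + k) = y (j0 + k))
    (hL : Lang y = Lang u) (D : B → Prop) (R0 m0 K0 : ℕ) (hK0 : R0 * m0 < 3 * 4 ^ K0)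
    (hR0 : ∀ i, ∃ k, k < R0 ∧ ¬ D (v (i + k))) (hKD : ∀ c, D c → (K c).length ≤ m0)
    (hKN : ∀ c, ¬ D c → 3 * 4 ^ K0 < (K c).length) : False := by
  classical
  have := Fintype.ofFinite B
  obtain ⟨M, hM⟩ : ∃ M, ∀ b, (K b).length ≤ M :=
    ⟨∑ b, (K b).length, fun b =>
      Finset.single_le_sum (f := fun b => (K b).length) (fun _ _ => Nat.zero_le _)
        (Finset.mem_univ b)⟩
  set pos : ℕ → ℕ := fun m => (app K (slice v 0 m)).length with hposdef
  have pos0 : pos 0 = 0 := by simp [hposdef, slice, app]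
  have poss : ∀ m, pos (m + 1) = pos m + (K (v m)).length := by
    intro m
    simp only [hposdef]
    rw [c_add, c_app, List.length_append]
    congr 1
    simp [slice, app]
  have posmono : Monotone pos := monotone_nat_of_le_succ (fun m => by rw [poss]; omega)
  -- a late hole
  set W : ℕ := 3 * 4 ^ K0 + M + P.length + 1 with hW
  obtain ⟨j, hjJ, hjR, hS⟩ := hlate y hL W (j0 + W)
  set q := i0 + (j - j0) with hq
  have hexm : ∃ m, q < pos (m + 1) := by
    obtain ⟨m, hm⟩ := hY.2 (q + 1)
    have h1 : pos m ≤ pos (m + 1) := posmono (Nat.le_succ m)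
    have h2 : q + 1 ≤ pos m := hm
    exact ⟨m, by omega⟩
  obtain ⟨m, hm1, hm2⟩ : ∃ m, pos m ≤ q ∧ q < pos (m + 1) := by
    refine ⟨Nat.find hexm, ?_, Nat.find_spec hexm⟩
    rcases Nat.eq_zero_or_pos (Nat.find hexm) with h0 | h0
    · rw [h0, pos0]; exact Nat.zero_le _
    · have := Nat.find_min hexm (show Nat.find hexm - 1 < Nat.find hexm by omega)
      rw [show Nat.find hexm - 1 + 1 = Nat.find hexm by omega] at this
      omega
  -- the first non-idempotent letter
  have hexk : ∃ k, ¬ D (v (m + k)) := by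
    obtain ⟨k, _, hk⟩ := hR0 m
    exact ⟨k, hk⟩
  obtain ⟨k, hk, hkmin, hkR⟩ : ∃ k, ¬ D (v (m + k)) ∧ (∀ k' < k, D (v (m + k'))) ∧
      k < R0 := by
    obtain ⟨k1, hk1, hk2⟩ := hR0 m
    refine ⟨Nat.find hexk, Nat.find_spec hexk, fun k' hk' => ?_, ?_⟩
    · exact not_not.1 (Nat.find_min hexk hk')
    · exact (Nat.find_min' hexk hk2).trans_lt hk1
  have hpk : ∀ k' ≤ k, pos (m + k') ≤ pos m + k' * m0 := by
    intro k'
    induction k' with
    | zero => intro _; simp
    | succ k' ih =>
      intro hk'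
      have e1 := ih (by omega)
      have e2 := hKD _ (hkmin k' (by omega))
      rw [← add_assoc, poss, Nat.succ_mul]
      omega
  have hpk' := hpk k le_rfl
  have hkm : k * m0 ≤ R0 * m0 := Nat.mul_le_mul_right _ hkR.le
  have hlen := hKN _ hk
  have hlM := hM (v (m + k))
  have hpkk : pos (m + k + 1) = pos (m + k) + (K (v (m + k))).length := poss _
  have hblk := f2_block hpos hG hY (m + k)
  change ∀ i, i < _ → Y (pos (m + k) + i) = Y (pos (m + k) + _) at hblk
  set l := (K (v (m + k))).length with hl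
  -- the palindrome in terms of `S`
  have hqk : q < pos (m + k + 1) := hm2.trans_le (posmono (by omega))
  have hcast : ((3 * 4 ^ K0 : ℕ) : ℤ) = 3 * 4 ^ K0 := by push_cast; ring
  have hiA : i0 ≤ pos (m + k) := by
    have : pos m ≤ pos (m + k) := posmono (by omega)
    have : pos (m + 1) = pos m + (K (v m)).length := poss m
    have := hM (v m)
    omega
  set a : ℤ := (pos (m + k) : ℤ) - q with ha
  set t : ℤ := max 0 a with ht
  have ht0 : 0 ≤ t := le_max_left _ _
  have hta : a ≤ t := le_max_right _ _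
  have htlt : t < 3 * 4 ^ K0 := by
    rw [← hcast]
    apply max_lt
    · have : 0 < 3 * 4 ^ K0 := by positivity
      exact_mod_cast this
    · rw [ha]
      have : pos (m + k) < q + 3 * 4 ^ K0 := by omega
      have h9 : (pos (m + k) : ℤ) < ((q + 3 * 4 ^ K0 : ℕ) : ℤ) := by exact_mod_cast this
      push_cast at h9 ⊢
      linarith
  have htb : t < a + (l + P.length : ℕ) := by
    apply max_lt
    · rw [ha]
      have : q < pos (m + k) + (l + P.length) := by omega
      have h9 : (q : ℤ) < ((pos (m + k) + (l + P.length) : ℕ) : ℤ) := by exact_mod_cast this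
      push_cast at h9 ⊢
      linarith
    · have : 0 < l + P.length := by omega
      have h9 : (0 : ℤ) < ((l + P.length : ℕ) : ℤ) := by exact_mod_cast this
      linarith
  have hgoal := hhole2 K0 a (a + (l + P.length : ℕ)) t ht0 htlt hta htb ?_
  · have h9 : ((l + P.length : ℕ) : ℤ) ≤ ((3 * 4 ^ K0 : ℕ) : ℤ) := by
      rw [hcast]; linarith
    have h10 : l + P.length ≤ 3 * 4 ^ K0 := by exact_mod_cast h9
    omega
  · intro i hi1 hi2
    have hb1 : pos (m + k) ≤ q + 3 * 4 ^ K0 := by omega
    have hb2 : q ≤ pos (m + k) + M := by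
      have : pos m ≤ pos (m + k) := posmono (by omega)
      have : pos (m + 1) = pos m + (K (v m)).length := poss m
      have := hM (v m)
      omega
    obtain ⟨r, hr⟩ : ∃ r : ℕ, i = a + r := ⟨(i - a).toNat, by omega⟩
    have hr2 : r < l + P.length := by
      have : (r : ℤ) < ((l + P.length : ℕ) : ℤ) := by linarith
      exact_mod_cast this
    have hYS : ∀ r : ℕ, r < l + P.length → Y (pos (m + k) + r) = S (a + r) := by
      intro r hr2
      have hbb : a + r < (W : ℤ) := by
        have : pos (m + k) + r < q + W := by omega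
        have h9 : ((pos (m + k) + r : ℕ) : ℤ) < ((q + W : ℕ) : ℤ) := by exact_mod_cast this
        push_cast at h9
        rw [ha]
        linarith
      have hba : -(W : ℤ) ≤ a + r := by
        have : q ≤ pos (m + k) + r + W := by omega
        have h9 : (q : ℤ) ≤ ((pos (m + k) + r + W : ℕ) : ℤ) := by exact_mod_cast this
        push_cast at h9
        rw [ha]
        linarith
      have e1 := hS (a + r) hba hbb
      rw [← e1]
      have e2 := hTE (pos (m + k) - i0 + r)
      rw [show i0 + (pos (m + k) - i0 + r) = pos (m + k) + r by omega] at e2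
      rw [e2]
      congr 1
      have e3 : ((j : ℤ) + (a + r)) = ((j0 + (pos (m + k) - i0 + r) : ℕ) : ℤ) := by
        rw [ha, hq]
        have : ((j - j0 : ℕ) : ℤ) = (j : ℤ) - j0 := by
          rw [Nat.cast_sub (by omega)]
        have h11 : ((pos (m + k) - i0 : ℕ) : ℤ) = (pos (m + k) : ℤ) - i0 := by
          rw [Nat.cast_sub hiA]
        push_cast
        rw [this, h11]
        ring
      rw [e3, Int.toNat_natCast]
    have hr3 : l + P.length - 1 - r < l + P.length := by omega
    have e4 := hYS r hr2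
    have e5 := hYS _ hr3
    have e6 := hblk r hr2
    rw [hr, ← e4, e6, e5]
    congr 1
    have : ((l + P.length - 1 - r : ℕ) : ℤ) = (l + P.length : ℕ) - 1 - r := by
      rw [Nat.cast_sub (by omega), Nat.cast_sub (by omega)]
      simp
    rw [this]
    ring

end Pool.Agent.H41.HKSE
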