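import Pool.Agent.H41.HKSE.Core

/-!
# The sharp form without hypotheses on the morphisms: deleting the invisible letters
-/

set_option autoImplicit false

namespace Pool.Agent.H41.HKSE

open Pool.Agent.H23.HKS

/-- Uniqueness of the image of an infinite word. -/
theorem img_unique {A B : Type} {h : A → List B} {x : ℕ → A} {y y' : ℕ → B}
    (H : IsImage h x y) (H' : IsImage h x y') : y = y' := by
  funext k
  obtain ⟨n, hn⟩ := H.2 (k + 1)
  have key : ∀ z : ℕ → B, IsImage h x z → (app h (slice x 0 n))[k]? = some (z k) := by
    intro z hz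
    obtain ⟨m, hm⟩ := hz.1 n
    have hk : k < m := by
      rw [hm, c_len] at hn
      exact hn
    rw [hm]
    simp [slice, hk]
  have h1 := key y H
  have h2 := key y' H'
  rw [h1] at h2
  exact Option.some.inj h2

theorem app_nil' {A B : Type} (f : A → List B) : app f [] = [] := rfl

theorem app_cons' {A B : Type} (f : A → List B) (a : A) (w : List A) :
    app f (a :: w) = f a ++ app f w := by
  simp [app]

theorem app_congr {A B : Type} {f g : A → List B} {w : List A} (h : ∀ a ∈ w, f a = g a) :
    app f w = app g w := by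
  induction w with
  | nil => rfl
  | cons a w ih =>
    rw [app_cons', app_cons', h a (by simp), ih (fun b hb => h b (List.mem_cons_of_mem _ hb))]

theorem app_eq_nil {A B : Type} {f : A → List B} {w : List A} (h : ∀ a ∈ w, f a = []) :
    app f w = [] := by
  induction w with
  | nil => rfl
  | cons a w ih =>
    rw [app_cons', h a (by simp), ih (fun b hb => h b (List.mem_cons_of_mem _ hb))]
    rfl

theorem eq_nil_of_app {A B : Type} {f : A → List B} {w : List A} (h : app f w = []) :
    ∀ a ∈ w, f a = [] := by
  induction w with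
  | nil => intro a ha; simp at ha
  | cons b w ih =>
    rw [app_cons', List.append_eq_nil_iff] at h
    intro a ha
    rcases List.mem_cons.1 ha with h1 | h1
    · rw [h1]; exact h.1
    · exact ih h.2 a h1

theorem app_app' {A B C : Type} (h : A → List B) (k : B → List C) (w : List A) :
    app k (app h w) = app (fun a => app k (h a)) w := by
  simp only [app, List.flatMap_assoc]

theorem mem_app {A B : Type} {f : A → List B} {w : List A} {b : B} :
    b ∈ app f w ↔ ∃ a ∈ w, b ∈ f a := by
  simp [app]

/-- Powers of a morphism with the set of letters of the images constant. -/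
theorem letters {B : Type} [Finite B] (g : B → List B) :
    ∃ P, 1 ≤ P ∧ ∀ c e, e ∈ (app g)^[P] [c] ↔ e ∈ (app g)^[2 * P] [c] := by
  classical
  have := Fintype.ofFinite B
  -- the relation after `n` steps
  let M : ℕ → (B → B → Prop) := fun n c e => e ∈ (app g)^[n] [c]
  have hadd : ∀ m n c e, M (m + n) c e ↔ ∃ d, M n c d ∧ M m d e := by
    intro m n c e
    simp only [M]
    rw [Function.iterate_add_apply, c_iter g m]
    constructor
    · intro h
      obtain ⟨d, hd, h2⟩ := List.mem_flatMap.1 h
      exact ⟨d, hd, h2⟩
    · rintro ⟨d, hd, h2⟩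
      exact List.mem_flatMap.2 ⟨d, hd, h2⟩
  have hcongr : ∀ m n k, M m = M n → M (m + k) = M (n + k) := by
    intro m n k h
    funext c e
    apply propext
    rw [hadd, hadd, h]
  obtain ⟨m, n, hmn, heq⟩ : ∃ m n, m < n ∧ M m = M n := by
    obtain ⟨m, n, hne, h⟩ := Finite.exists_ne_map_eq_of_infinite M
    rcases lt_or_gt_of_ne hne with h1 | h1
    · exact ⟨m, n, h1, h⟩
    · exact ⟨n, m, h1, h.symm⟩
  -- period p = n - m from m on
  obtain ⟨p, rfl⟩ := Nat.exists_eq_add_of_lt hmn
  have hper : ∀ k, M (m + k) = M (m + k + (p + 1)) := by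
    intro k
    have h1 := hcongr m (m + p + 1) k heq
    rw [h1]
    congr 1
    omega
  have hper2 : ∀ t k, M (m + k) = M (m + k + t * (p + 1)) := by
    intro t
    induction t with
    | zero => intro k; simp
    | succ t ih =>
      intro k
      rw [ih k]
      have h1 := hper (k + t * (p + 1))
      rw [← add_assoc] at h1
      rw [h1]
      congr 1
      ring
  refine ⟨(m + 1) * (p + 1), by nlinarith [Nat.zero_le m, Nat.zero_le p], fun c e => ?_⟩
  have hle : m ≤ (m + 1) * (p + 1) := by nlinarith [Nat.zero_le m, Nat.zero_le p, Nat.zero_le (m * p)]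
  obtain ⟨k, hk⟩ := Nat.exists_eq_add_of_le hle
  have h1 := hper2 (m + 1) k
  rw [← hk] at h1
  have h2 : (m + 1) * (p + 1) + (m + 1) * (p + 1) = 2 * ((m + 1) * (p + 1)) := by ring
  rw [h2] at h1
  have h3 := congrFun (congrFun h1 c) e
  simp only [M] at h3
  rw [h3]

end Pool.Agent.H41.HKSE
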