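import Pool.Agent.H41.HKSE.Red

/-!
# The sharp form without hypotheses on the morphisms
-/

set_option autoImplicit false

namespace Pool.Agent.H41.HKSE

open Pool.Agent.H23.HKS

section Del

variable {B C : Type}

open Classical in
/-- Deletion of the letters with empty image under `f`. -/
noncomputable def del (f : B → List C) (c : B) : List {c : B // f c ≠ []} :=
  if hc : f c ≠ [] then [⟨c, hc⟩] else []

theorem del_vis (f : B → List C) (c : {c : B // f c ≠ []}) : del f c.1 = [c] := by
  unfold del
  rw [dif_pos c.2]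

theorem del_inv (f : B → List C) (c : B) (h : f c = []) : del f c = [] := by
  unfold del
  rw [dif_neg (by simpa using h)]

theorem len_le {f : B → List C} {N : ℕ} {w : List B} (h : ∀ a ∈ w, (f a).length ≤ N) :
    (app f w).length ≤ w.length * N := by
  induction w with
  | nil => simp [app]
  | cons a w ih =>
    have h1 := h a (by simp)
    have h2 := ih (fun b hb => h b (List.mem_cons_of_mem _ hb))
    rw [app_cons', List.length_append, List.length_cons, Nat.succ_mul]
    omega

theorem iter_app (h : B → List B) (n : ℕ) (w : List B) :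
    (app h)^[n] w = app (fun c => (app h)^[n] [c]) w := c_iter h n w

/-- All letters of the images of the letters of a fixed point are letters of the fixed point. -/
theorem letters_iter (hpos : PosSt) {g : B → List B} {v : ℕ → B} (hv : IsImage g v v) (i r : ℕ) :
    ∀ e ∈ (app g)^[r] [v i], ∃ j, e = v j := by
  induction r with
  | zero =>
    intro e he
    rw [Function.iterate_zero_apply, List.mem_singleton] at he
    exact ⟨i, he⟩
  | succ r ih =>
    intro e he
    rw [Function.iterate_succ_apply', mem_app] at he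
    obtain ⟨a, ha, hea⟩ := he
    obtain ⟨j, rfl⟩ := ih a ha
    have h1 := (hpos B B g v v hv j).1
    rw [← h1, slice, List.mem_map] at hea
    obtain ⟨k, _, hk⟩ := hea
    exact ⟨_, hk.symm⟩

end Del

section Quot

variable {B C : Type} (f : B → List C) (h : B → List B)

/-- The composed morphism. -/
def cmp (c : B) : List C := app f (h c)

/-- The induced morphism on the visible letters. -/
noncomputable def ind (c : {c : B // cmp f h c ≠ []}) : List {c : B // cmp f h c ≠ []} :=
  app (del (cmp f h)) (h c.1)

/-- The induced coding. -/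
def cod1 (c : {c : B // cmp f h c ≠ []}) : List C := cmp f h c.1

variable (hid : ∀ c e, e ∈ h c ↔ e ∈ app h (h c))

include hid in
theorem closed (c : B) (hc : cmp f h c = []) : app (del (cmp f h)) (h c) = [] := by
  refine app_eq_nil fun e he => del_inv _ _ ?_
  refine app_eq_nil fun x hx => ?_
  exact eq_nil_of_app hc x ((hid c x).2 (mem_app.2 ⟨e, he, hx⟩))

include hid in
theorem ne_ind : NE (ind f h) := by
  intro c hc
  apply c.2
  refine app_eq_nil fun x hx => ?_
  by_contra hfx
  obtain ⟨e, he, hxe⟩ := mem_app.1 ((hid c.1 x).1 hx)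
  have h1 : cmp f h e ≠ [] := fun h0 => hfx (eq_nil_of_app h0 x hxe)
  have h2 := eq_nil_of_app hc e he
  have h3 := del_vis (cmp f h) ⟨e, h1⟩
  rw [h2] at h3
  simp at h3

theorem ne_cod1 : NE (cod1 f h) := fun c => c.2

include hid in
theorem ind_del (c : B) : app (ind f h) (del (cmp f h) c) = app (del (cmp f h)) (h c) := by
  by_cases hc : cmp f h c = []
  · rw [del_inv _ _ hc, closed f h hid c hc]
    rfl
  · rw [del_vis (cmp f h) ⟨c, hc⟩, c_app_sing]
    rfl

theorem cod1_del (c : B) : app (cod1 f h) (del (cmp f h) c) = cmp f h c := by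
  by_cases hc : cmp f h c = []
  · rw [del_inv _ _ hc, hc]
    rfl
  · rw [del_vis (cmp f h) ⟨c, hc⟩, c_app_sing]
    rfl

include hid in
theorem ind_iter (n : ℕ) (w : List B) : (app (ind f h))^[n] (app (del (cmp f h)) w) =
    app (del (cmp f h)) ((app h)^[n] w) := by
  induction n generalizing w with
  | zero => rfl
  | succ n ih =>
    rw [Function.iterate_succ_apply, Function.iterate_succ_apply, ← ih, app_app', app_app']
    congr 2
    funext c
    exact ind_del f h hid c

include hid in
/-- The image of the iterates. -/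
theorem img_iter (n : ℕ) (c : B) : app (cod1 f h) ((app (ind f h))^[n] (del (cmp f h) c)) =
    app f ((app h)^[n + 1] [c]) := by
  have h1 := ind_iter f h hid n [c]
  rw [c_app_sing] at h1
  rw [h1, app_app', Function.iterate_succ_apply', app_app']
  congr 1
  funext e
  exact cod1_del f h e

end Quot

theorem NE_pow {B : Type} {h : B → List B} (hne : NE h) (P : ℕ) :
    NE (fun c => (app h)^[P] [c]) := by
  intro c hc
  have h5 := f2_mono hne [c] (Nat.zero_le P)
  have hc' : (app h)^[P] [c] = [] := hc
  rw [hc'] at h5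
  simp at h5

theorem DD_iter {B : Type} {H : B → List B} {c : B} (hd : DD H c) (k : ℕ) :
    (app H)^[k + 1] [c] = H c := by
  induction k with
  | zero => simp [c_app_sing]
  | succ k ih =>
    rw [Function.iterate_succ_apply', ih]
    exact hd

theorem degenerateE (hhole2 : HoleSt2) (haper : AperSt) (hidem : IdemSt) (hexp : ExpSt)
    (hgap : GapSt) (hper : PerSt) (hlate : LateSt) (hpos : PosSt) (hconj : TEConjSt)
    (hmap : TEMapSt) (hcomp : CompSt) (hdec : DecompSt) (B : Type) [Finite B]
    (v : ℕ → B) (g g' : B → List B) (f f' : B → List (Fin 3)) (y : ℕ → Fin 3)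
    (hv : IsImage g v v) (h1 : Conjugate g g') (h2 : ClassP g') (h3 : Conjugate f f')
    (h4 : ClassP f') (hy : IsImage f v y) (hL : Lang y = Lang u)
    (i : ℕ) : ∃ C, ∀ n, (app f ((app g)^[n] [v i])).length ≤ C := by
  classical
  obtain ⟨P0, hP0, hlet⟩ := letters g
  obtain ⟨h, hh⟩ : ∃ h : B → List B, h = fun c => (app g)^[P0] [c] := ⟨_, rfl⟩
  have hpw : ∀ n w, (app h)^[n] w = (app g)^[P0 * n] w := by
    intro n w
    rw [hh]
    exact f2_iter_pow g P0 n w
  have hid : ∀ c e, e ∈ h c ↔ e ∈ app h (h c) := by
    intro c e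
    have e1 : h c = (app g)^[P0] [c] := by rw [hh]
    have e2 : app h (h c) = (app g)^[2 * P0] [c] := by
      have := hpw 2 [c]
      rw [show P0 * 2 = 2 * P0 by ring] at this
      rw [← this]
      simp [c_app_sing]
    rw [e2, e1]
    exact hlet c e
  have hvh : IsImage h v v := by
    rw [hh]
    exact f3_power hcomp hv P0 hP0
  have hy2 : IsImage (cmp f h) v y := hcomp B B (Fin 3) h f v v y hvh hy
  -- the induced word
  obtain ⟨v1, hv1, hy1⟩ : ∃ v1, IsImage (del (cmp f h)) v v1 ∧ IsImage (cod1 f h) v1 y := by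
    apply hdec B _ (Fin 3) (del (cmp f h)) (cod1 f h) v y
    have : (fun a => app (cod1 f h) (del (cmp f h) a)) = cmp f h := funext (cod1_del f h)
    rw [this]
    exact hy2
  have hvv1 : IsImage (ind f h) v1 v1 := by
    have e1 : IsImage (fun a => app (ind f h) (del (cmp f h) a)) v v1 := by
      have : (fun a => app (ind f h) (del (cmp f h) a)) = fun a => app (del (cmp f h)) (h a) :=
        funext (ind_del f h hid)
      rw [this]
      exact hcomp B B _ h (del (cmp f h)) v v v1 hvh hv1
    obtain ⟨v2, hv2, hv3⟩ := hdec B _ _ (del (cmp f h)) (ind f h) v v1 e1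
    rwa [img_unique hv2 hv1] at hv3
  have hne := ne_ind f h hid
  have hnec := ne_cod1 f h
  obtain ⟨P1, hP1, hId⟩ := hidem _ (ind f h) hne
  obtain ⟨H, hH⟩ : ∃ H, H = fun c => (app (ind f h))^[P1] [c] := ⟨_, rfl⟩
  rw [← hH] at hId
  have hpw1 : ∀ n w, (app H)^[n] w = (app (ind f h))^[P1 * n] w := by
    intro n w
    rw [hH]
    exact f2_iter_pow (ind f h) P1 n w
  have hvH : IsImage H v1 v1 := by
    rw [hH]
    exact f3_power hcomp hvv1 P1 hP1
  have hneH : NE H := by
    rw [hH]
    exact NE_pow hne P1
  have := Fintype.ofFinite {c : B // cmp f h c ≠ []}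
  by_cases hnd : ∃ j, ¬ DD H (v1 j)
  · exfalso
    by_cases hE : ∃ j, RExp H (v1 j) ∨ LExp H (v1 j)
    · obtain ⟨j, hj⟩ := hE
      have hp := hexp _ H v1 j hneH hvH hj
      obtain ⟨p, hp1, hp2⟩ := hper _ (Fin 3) (cod1 f h) v1 y hnec hy1 hp
      exact f3_aper haper hL p hp1 hp2
    · push Not at hE
      obtain ⟨R0, hR0⟩ := hgap _ H v1 hneH hId hvH hnd hE
      set m0 : ℕ := ∑ c, (app (cod1 f h) (H c)).length with hm0
      have hm0c : ∀ c, (app (cod1 f h) (H c)).length ≤ m0 := fun c =>
        Finset.single_le_sum (f := fun c => (app (cod1 f h) (H c)).length)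
          (fun _ _ => Nat.zero_le _) (Finset.mem_univ c)
      obtain ⟨K0, hK0⟩ : ∃ K0 : ℕ, R0 * m0 < 3 * 4 ^ K0 := by
        refine ⟨R0 * m0, ?_⟩
        have : R0 * m0 < 4 ^ (R0 * m0) := Nat.lt_pow_self (by norm_num)
        omega
      obtain ⟨n, hn1, hn⟩ : ∃ n, 1 ≤ n ∧
          ∀ c, ¬ DD H c → 3 * 4 ^ K0 < ((app H)^[n] [c]).length := by
        have h5 : ∀ c, ∃ n, ¬ DD H c → 3 * 4 ^ K0 + 1 ≤ ((app H)^[n] [c]).length := by
          intro c
          by_cases hc : DD H c
          · exact ⟨0, fun h => absurd hc h⟩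
          · obtain ⟨n, hn⟩ := hId.1 c hc (3 * 4 ^ K0 + 1)
            exact ⟨n, fun _ => hn⟩
        choose N hN using h5
        refine ⟨∑ c, N c + 1, by omega, fun c hc => ?_⟩
        have h6 : N c ≤ ∑ c, N c + 1 := by
          have := Finset.single_le_sum (f := N) (fun _ _ => Nat.zero_le _) (Finset.mem_univ c)
          omega
        have h7 := f2_mono hneH [c] h6
        have h8 := hN c hc
        omega
      obtain ⟨P, Y, i0, j0, hG, hY, hTE⟩ := chain hpos hconj hmap hcomp hdec B (Fin 3) v g g'
        f f' y hv h1 h2 h3 h4 hy (P0 * (P1 * n + 1))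
      obtain ⟨K, hK⟩ : ∃ K : B → List (Fin 3), K = fun b => app f' ((app g')^[P0 * (P1 * n + 1)]
        [b]) := ⟨_, rfl⟩
      rw [← hK] at hG hY
      have hKlen : ∀ b, (K b).length =
          (app (cod1 f h) ((app (ind f h))^[P1 * n] (del (cmp f h) b))).length := by
        intro b
        rw [img_iter f h hid, hpw, hK]
        exact len B (Fin 3) g g' f f' h1 h3 _ b
      have hKlen1 : ∀ c : {c : B // cmp f h c ≠ []}, (K c.1).length =
          (app (cod1 f h) ((app H)^[n] [c])).length := by
        intro c
        rw [hKlen, del_vis, hpw1]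
      have hK1 : ∀ b, app (fun c : {c : B // cmp f h c ≠ []} => K c.1) (del (cmp f h) b) =
          K b := by
        intro b
        by_cases hb : cmp f h b = []
        · have e1 := hKlen b
          rw [del_inv _ _ hb] at e1
          have e2 : (app (ind f h))^[P1 * n] [] = [] := by
            have := iter_app (ind f h) (P1 * n) []
            rw [this]
            rfl
          rw [e2] at e1
          have e3 : K b = [] := List.length_eq_zero_iff.1 (by rw [e1]; rfl)
          rw [del_inv _ _ hb, e3]
          rfl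
        · rw [del_vis (cmp f h) ⟨b, hb⟩, c_app_sing]
      have hY1 : IsImage (fun c : {c : B // cmp f h c ≠ []} => K c.1) v1 Y := by
        have e1 : IsImage (fun a => app (fun c : {c : B // cmp f h c ≠ []} => K c.1)
            (del (cmp f h) a)) v Y := by
          have : (fun a => app (fun c : {c : B // cmp f h c ≠ []} => K c.1)
            (del (cmp f h) a)) = K := funext hK1
          rw [this]
          exact hY
        obtain ⟨v2, hv2, hv3⟩ := hdec B _ _ (del (cmp f h))
          (fun c : {c : B // cmp f h c ≠ []} => K c.1) v Y e1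
        rwa [img_unique hv2 hv1] at hv3
      have hG1 : Good (fun c : {c : B // cmp f h c ≠ []} => K c.1) P := by
        refine ⟨hG.1, fun a => hG.2.1 a.1, fun x z hxz => ?_⟩
        refine hG.2.2 (fun k => (x k).1) z ?_
        have e1 : ∀ n, app K (slice (fun k => (x k).1) 0 n) =
            app (fun c : {c : B // cmp f h c ≠ []} => K c.1) (slice x 0 n) := by
          intro n
          simp [slice, app, List.flatMap_map]
        refine ⟨fun n => ?_, fun m => ?_⟩
        · rw [e1]; exact hxz.1 n
        · obtain ⟨n, hn⟩ := hxz.2 m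
          exact ⟨n, by rw [e1]; exact hn⟩
      refine core hhole2 hlate hpos _ v1 (fun c => K c.1) P Y y i0 j0 hG1 hY1 hTE hL (DD H) R0 m0
        K0 hK0 hR0 (fun c hc => ?_) (fun c hc => ?_)
      · obtain ⟨k, rfl⟩ : ∃ k, n = k + 1 := ⟨n - 1, by omega⟩
        rw [hKlen1, DD_iter hc]
        exact hm0c c
      · rw [hKlen1]
        exact (hn c hc).trans_le (f2_len_app hnec _)
  · push Not at hnd
    -- everything is bounded
    obtain ⟨F, hF⟩ : ∃ F, ∀ c, (cod1 f h c).length ≤ F :=
      ⟨∑ c, (cod1 f h c).length, fun c =>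
        Finset.single_le_sum (f := fun c => (cod1 f h c).length) (fun _ _ => Nat.zero_le _)
          (Finset.mem_univ c)⟩
    obtain ⟨G, hG⟩ : ∃ G, ∀ c, (H c).length ≤ G :=
      ⟨∑ c, (H c).length, fun c =>
        Finset.single_le_sum (f := fun c => (H c).length) (fun _ _ => Nat.zero_le _)
          (Finset.mem_univ c)⟩
    have hB1 : ∀ m j, ((app (ind f h))^[m] [v1 j]).length ≤ G := by
      intro m j
      have e1 := f2_mono hne [v1 j] (show m ≤ P1 * (m + 1) by nlinarith)
      rw [← hpw1, DD_iter (hnd j)] at e1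
      exact e1.trans (hG _)
    have hB2 : ∀ m j, (app (cmp f h) ((app h)^[m] [v j])).length ≤ G * F := by
      intro m j
      have e1 : app (cmp f h) ((app h)^[m] [v j]) =
          app (cod1 f h) ((app (ind f h))^[m] (del (cmp f h) (v j))) := by
        rw [img_iter f h hid, Function.iterate_succ_apply', app_app']
        rfl
      rw [e1]
      by_cases hb : cmp f h (v j) = []
      · rw [del_inv _ _ hb]
        have e2 : (app (ind f h))^[m] [] = [] := by
          have := iter_app (ind f h) m []
          rw [this]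
          rfl
        rw [e2]
        exact Nat.zero_le _
      · have e3 := del_vis (cmp f h) ⟨v j, hb⟩
        have e4 := (hpos B _ (del (cmp f h)) v v1 hv1 j).1
        rw [show v j = (⟨v j, hb⟩ : {c : B // cmp f h c ≠ []}).1 from rfl, e3] at e4
        have e5 : v1 (app (del (cmp f h)) (slice v 0 j)).length = ⟨v j, hb⟩ := by
          simpa [slice] using e4
        rw [e3, ← e5]
        refine (len_le (fun a _ => hF a)).trans ?_
        exact Nat.mul_le_mul_right _ (hB1 m _)
    refine ⟨∑ r ∈ Finset.range P0, ((app f ((app g)^[r] [v i])).length +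
      ((app g)^[r] [v i]).length * (G * F)), fun n => ?_⟩
    have hr : n % P0 < P0 := Nat.mod_lt _ hP0
    have hsum := Finset.single_le_sum (f := fun r => ((app f ((app g)^[r] [v i])).length +
      ((app g)^[r] [v i]).length * (G * F))) (fun _ _ => Nat.zero_le _)
      (Finset.mem_range.2 hr)
    refine le_trans ?_ hsum
    have hn : n = P0 * (n / P0) + n % P0 := (Nat.div_add_mod n P0).symm
    have e1 : (app g)^[n] [v i] = (app h)^[n / P0] ((app g)^[n % P0] [v i]) := by
      rw [hpw, ← Function.iterate_add_apply, ← hn]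
    rw [e1]
    rcases Nat.eq_zero_or_pos (n / P0) with h0 | h0
    · rw [h0, Function.iterate_zero_apply]
      exact Nat.le_add_right _ _
    · obtain ⟨m, hm⟩ : ∃ m, n / P0 = m + 1 := ⟨n / P0 - 1, by omega⟩
      rw [hm, Function.iterate_succ_apply', app_app', iter_app, app_app']
      refine le_trans (len_le (N := G * F) fun a ha => ?_) (Nat.le_add_left _ _)
      obtain ⟨j, rfl⟩ := letters_iter hpos hv i _ a ha
      exact hB2 m j

end Pool.Agent.H41.HKSE
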